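import Pool.Agent.N245.BG.Stm

/-!
# Project BG (helper245), part GREEN: a stretched exponential bound of Green's function (helper591)
-/

set_option autoImplicit false

namespace Pool.Agent.N591.BG

open Complex Metric Set Filter Topology Pool.Agent.H712R2 Pool.Agent.H713R2 N62a1eb23
open Pool.Agent.Y736.HL

/-- Two critical orbits stay together. -/
theorem closeA (c₀ c : ℂ) (A : ℝ) (n : ℕ) (hA : 1 ≤ A)
    (hD : ∀ m k, 1 ≤ m → m ≤ k → k ≤ n → LL c₀ m k ≤ A)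
    (hn : 4 * A ^ 2 * ‖c - c₀‖ * (n : ℝ) ^ 2 ≤ 1) :
    ∀ k, k ≤ n → ‖P 2 k c - P 2 k c₀‖ ≤ 2 * A * ‖c - c₀‖ * k := by
  set ε := ‖c - c₀‖ with hε
  have hε0 : 0 ≤ ε := norm_nonneg _
  intro k
  induction k using Nat.strong_induction_on with
  | _ k ih =>
    intro hk
    have h1 := duhamel c₀ c k
    rw [← hε] at h1
    have h2 : ∀ j ∈ Finset.range k, LL c₀ (j + 1) k * (ε + ‖P 2 j c - P 2 j c₀‖ ^ 2) ≤
        2 * A * ε := by
      intro j hj
      have hjk := Finset.mem_range.1 hj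
      have h3 := ih j hjk (hjk.le.trans hk)
      have hjn : (j : ℝ) ≤ n := by exact_mod_cast hjk.le.trans hk
      have h4 : ‖P 2 j c - P 2 j c₀‖ ^ 2 ≤ (2 * A * ε * n) ^ 2 := by
        apply pow_le_pow_left₀ (norm_nonneg _)
        exact h3.trans (mul_le_mul_of_nonneg_left hjn (by positivity))
      have h5 : LL c₀ (j + 1) k ≤ A := hD (j + 1) k (by omega) hjk hk
      have h6 : (2 * A * ε * n) ^ 2 ≤ ε := by
        calc (2 * A * ε * n) ^ 2 = 4 * A ^ 2 * ε * (n : ℝ) ^ 2 * ε := by ring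
          _ ≤ 1 * ε := mul_le_mul_of_nonneg_right hn hε0
          _ = ε := one_mul _
      calc LL c₀ (j + 1) k * (ε + ‖P 2 j c - P 2 j c₀‖ ^ 2)
          ≤ A * (ε + ε) := by
            apply mul_le_mul h5 (by linarith) (by positivity) (by linarith)
        _ = 2 * A * ε := by ring
    have h3 := Finset.sum_le_sum h2
    rw [Finset.sum_const, Finset.card_range, nsmul_eq_mul] at h3
    linarith

theorem rpow_top {a : ℝ} (ha : 0 < a) : Tendsto (fun r : ℝ => r ^ (-a)) (𝓝[>] 0) atTop := by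
  have h := (tendsto_rpow_atTop ha).comp (tendsto_inv_nhdsGT_zero (𝕜 := ℝ))
  refine h.congr' ?_
  filter_upwards [self_mem_nhdsWithin] with r hr
  have hr' : (0 : ℝ) < r := hr
  show r⁻¹ ^ a = r ^ (-a)
  rw [Real.inv_rpow hr'.le, Real.rpow_neg hr'.le]

theorem green : Pool.Agent.N245.BG.S_GREEN := by
  intro c K β hc hK hLL
  have hβ : (0 : ℝ) ≤ β := Nat.cast_nonneg β
  obtain ⟨s, hs⟩ : ∃ s : ℝ, s = 1 / (2 * (β : ℝ) + 2) := ⟨_, rfl⟩
  obtain ⟨s', hs'⟩ : ∃ s' : ℝ, s' = 1 / (2 * (β : ℝ) + 4) := ⟨_, rfl⟩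
  have hs0 : 0 < s := by rw [hs]; positivity
  have hs'0 : 0 < s' := by rw [hs']; positivity
  have hss : s' < s := by
    rw [hs, hs']
    apply one_div_lt_one_div_of_lt <;> linarith
  have hK0 : 0 < K := by linarith
  obtain ⟨D, hD⟩ : ∃ D : ℝ, D = (8 * K ^ 2) ^ (-s) := ⟨_, rfl⟩
  have hD0 : 0 < D := by rw [hD]; positivity
  have hl2 : 0 < Real.log 2 := Real.log_pos (by norm_num)
  have e1 := (rpow_top (sub_pos.2 hss)).eventually_ge_atTop (3 / (Real.log 2 * D))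
  have e2 := (rpow_top hs'0).eventually_ge_atTop (Real.log 24)
  have e3 := (rpow_top hs0).eventually_ge_atTop (2 / D)
  have e4 : ∀ᶠ r : ℝ in 𝓝[>] 0, r < 1 / 2 :=
    (eventually_lt_nhds (by norm_num : (0 : ℝ) < 1 / 2)).filter_mono nhdsWithin_le_nhds
  filter_upwards [e1, e2, e3, e4, self_mem_nhdsWithin] with r h1 h2 h3 h4 h5 ψ hψ w hw hwr
  have hr : (0 : ℝ) < r := h5
  rw [← hs']
  -- the number `M`
  obtain ⟨M, hM⟩ : ∃ M : ℝ, M = D * r ^ (-s) := ⟨_, rfl⟩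
  have hM2 : 2 ≤ M := by
    rw [hM]
    rw [div_le_iff₀ hD0] at h3
    linarith
  have hMp : M ^ (2 * β + 2) = (8 * K ^ 2 * r)⁻¹ := by
    have hM' : M = (8 * K ^ 2 * r) ^ (-s) := by
      rw [hM, hD, Real.mul_rpow (by positivity) hr.le]
    rw [hM', ← Real.rpow_natCast, ← Real.rpow_mul (by positivity), ← Real.rpow_neg_one]
    congr 1
    rw [hs]
    push_cast
    field_simp
  obtain ⟨N, hN⟩ : ∃ N : ℕ, ⌊M⌋₊ = N + 2 := by
    have : 2 ≤ ⌊M⌋₊ := Nat.le_floor (by exact_mod_cast hM2)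
    exact ⟨⌊M⌋₊ - 2, by omega⟩
  have hN1 : ((N : ℝ) + 2) ≤ M := by
    have := Nat.floor_le (by linarith : 0 ≤ M)
    rw [hN] at this
    push_cast at this
    exact this
  have hN2 : M < (N : ℝ) + 3 := by
    have := Nat.lt_floor_add_one M
    rw [hN] at this
    push_cast at this
    linarith
  have hN0 : (0 : ℝ) ≤ N := Nat.cast_nonneg N
  have hNp : 8 * K ^ 2 * r * ((N : ℝ) + 2) ^ (2 * β + 2) ≤ 1 := by
    have h6 : ((N : ℝ) + 2) ^ (2 * β + 2) ≤ (8 * K ^ 2 * r)⁻¹ := by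
      rw [← hMp]
      exact pow_le_pow_left₀ (by linarith) hN1 _
    calc 8 * K ^ 2 * r * ((N : ℝ) + 2) ^ (2 * β + 2) ≤ 8 * K ^ 2 * r * (8 * K ^ 2 * r)⁻¹ :=
          mul_le_mul_of_nonneg_left h6 (by positivity)
      _ = 1 := mul_inv_cancel₀ (by positivity)
  -- the orbits are close
  obtain ⟨A, hA⟩ : ∃ A : ℝ, A = K * ((N : ℝ) + 2) ^ β := ⟨_, rfl⟩
  have hA1 : 1 ≤ A := by
    rw [hA]
    have : (1 : ℝ) ≤ ((N : ℝ) + 2) ^ β := one_le_pow₀ (by linarith)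
    nlinarith
  obtain ⟨ε, hε⟩ : ∃ ε, ε = ‖ψ w - c‖ := ⟨_, rfl⟩
  have hε0 : 0 ≤ ε := by rw [hε]; exact norm_nonneg _
  have hεr : ε ≤ 2 * r := by rw [hε]; exact hwr
  have hAN : 4 * A ^ 2 * ε * ((N + 1 : ℕ) : ℝ) ^ 2 ≤ 1 := by
    push_cast
    calc 4 * A ^ 2 * ε * ((N : ℝ) + 1) ^ 2 ≤ 4 * A ^ 2 * (2 * r) * ((N : ℝ) + 2) ^ 2 := by
          gcongr
          linarith
      _ = 8 * K ^ 2 * r * ((N : ℝ) + 2) ^ (2 * β + 2) := by
          rw [hA]
          ring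
      _ ≤ 1 := hNp
  have hcl := closeA c (ψ w) A (N + 1) hA1 (fun m k hm hmk hk => by
    refine (hLL m k hmk).trans ?_
    rw [hA]
    apply mul_le_mul_of_nonneg_left _ hK0.le
    apply pow_le_pow_left₀ (Nat.cast_nonneg _)
    have : k - m + 1 ≤ N + 2 := by omega
    exact_mod_cast this) (by rw [← hε]; exact hAN) (N + 1) le_rfl
  rw [← hε] at hcl
  have hcl1 : 2 * A * ε * ((N + 1 : ℕ) : ℝ) ≤ 1 := by
    have h6 : (2 * A * ε * ((N + 1 : ℕ) : ℝ)) ^ 2 ≤ 1 := by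
      calc (2 * A * ε * ((N + 1 : ℕ) : ℝ)) ^ 2 = 4 * A ^ 2 * ε * ((N + 1 : ℕ) : ℝ) ^ 2 * ε := by
            ring
        _ ≤ 1 * 1 := mul_le_mul hAN (by linarith) hε0 (by norm_num)
        _ = 1 := one_mul _
    exact (sq_le_one_iff₀ (by positivity)).1 h6
  have hrt := rate_le hc hψ hw (n := N) (by rw [← hε]; linarith) (hcl.trans hcl1)
  -- conclusion
  have hlog : Real.log ‖w‖ ≤ 12 / 2 ^ (N + 2) :=
    (Real.log_le_sub_one_of_pos (by linarith)).trans hrt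
  refine hlog.trans ?_
  have h24 : (24 : ℝ) = Real.exp (Real.log 24) := (Real.exp_log (by norm_num)).symm
  have h2N : (2 : ℝ) ^ (N + 3) = Real.exp (Real.log 2 * ((N : ℝ) + 3)) := by
    rw [← Real.rpow_natCast, Real.rpow_def_of_pos (by norm_num)]
    push_cast
    rfl
  have h7 : (12 : ℝ) / 2 ^ (N + 2) = 24 / 2 ^ (N + 3) := by
    rw [pow_succ (2 : ℝ) (N + 2)]
    field_simp
    norm_num
  rw [h7, h2N, h24, ← Real.exp_sub, Real.exp_le_exp]
  have h8 : r ^ (-s) = r ^ (-(s - s')) * r ^ (-s') := by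
    rw [← Real.rpow_add hr]
    congr 1
    ring
  have h9 : 3 * r ^ (-s') ≤ Real.log 2 * M := by
    rw [hM, h8]
    have h10 : 3 ≤ r ^ (-(s - s')) * (Real.log 2 * D) := (div_le_iff₀ (by positivity)).1 h1
    have h11 : 0 < r ^ (-s') := by positivity
    calc 3 * r ^ (-s') ≤ r ^ (-(s - s')) * (Real.log 2 * D) * r ^ (-s') :=
          mul_le_mul_of_nonneg_right h10 h11.le
      _ = _ := by ring
  have h12 : Real.log 2 * M ≤ Real.log 2 * ((N : ℝ) + 3) :=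
    mul_le_mul_of_nonneg_left hN2.le hl2.le
  linarith

end Pool.Agent.N591.BG
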